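import Pool.Agent.N684.BK.Stm

/-!
# BK/FM: first moment and deletion
-/

set_option autoImplicit false
set_option linter.unusedSectionVars false
set_option linter.dupNamespace false

namespace Pool.Agent.N459.BK.FM

open Finset Pool.Agent.N684.BK
open scoped Classical

theorem cardR {Ω : Type} [Fintype Ω] (p : Ω → Prop) :
    ((Nat.card {w // p w} : ℕ) : ℝ) = ∑ w, (if p w then (1 : ℝ) else 0) := by
  rw [Nat.card_eq_fintype_card, Fintype.card_subtype, Finset.sum_boole]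

section
variable {Pt Ω₁ Ω₂ Ci : Type} [Fintype Pt] [Fintype Ω₁] [Fintype Ω₂] [Fintype Ci]
variable (V : Ω₁ → Set Pt) (R : Ω₂ → Pt → Pt → Prop) (S : Ci → Set Pt) (bad : Ω₁ → Ω₂ → Prop)

/-- indicator of `V` -/
noncomputable def av (w : Ω₁) (x : Pt) : ℝ := if x ∈ V w then 1 else 0

/-- number of points -/
noncomputable def nn (w : Ω₁) : ℝ := ∑ x, av V w x

/-- number of pairs -/
noncomputable def eps (w : Ω₁) (a : Ω₂) : ℝ :=
  ∑ x, ∑ y, av V w x * av V w y * (if R a x y then 1 else 0)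

/-- number of bad subsets -/
noncomputable def kap (w : Ω₁) : ℝ := ∑ c, (if S c ⊆ V w then (1 : ℝ) else 0)

theorem av_nonneg (w : Ω₁) (x : Pt) : 0 ≤ av V w x := by
  unfold av; split_ifs <;> norm_num

theorem av_sq (w : Ω₁) (x : Pt) : av V w x * av V w x = av V w x := by
  unfold av; split_ifs <;> norm_num

theorem nn_nonneg (w : Ω₁) : 0 ≤ nn V w := Finset.sum_nonneg fun x _ => av_nonneg V w x

theorem kap_nonneg (w : Ω₁) : 0 ≤ kap V S w :=
  Finset.sum_nonneg fun x _ => by split_ifs <;> norm_num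

theorem nn_sq (w : Ω₁) : nn V w ^ 2 = ∑ x, ∑ y, av V w x * av V w y := by
  unfold nn
  rw [sq, Finset.sum_mul_sum]

theorem eps_nonneg (w : Ω₁) (a : Ω₂) : 0 ≤ eps V R w a :=
  Finset.sum_nonneg fun x _ => Finset.sum_nonneg fun y _ =>
    mul_nonneg (mul_nonneg (av_nonneg V w x) (av_nonneg V w y)) (by split_ifs <;> norm_num)

theorem eps_le (w : Ω₁) (a : Ω₂) : eps V R w a ≤ nn V w ^ 2 := by
  rw [nn_sq]
  refine Finset.sum_le_sum fun x _ => Finset.sum_le_sum fun y _ => ?_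
  have h1 : 0 ≤ av V w x * av V w y := mul_nonneg (av_nonneg V w x) (av_nonneg V w y)
  split_ifs
  · rw [mul_one]
  · rw [mul_zero]; exact h1

variable {s m q : ℕ}

theorem sum_nn (hq : 0 < q) (hP : Fintype.card Pt = q ^ (s + m))
    (h1 : ∀ x, Nat.card {ω // x ∈ V ω} * q ^ m = Fintype.card Ω₁) :
    ∑ w, nn V w = (q : ℝ) ^ s * Fintype.card Ω₁ := by
  have hq' : (0 : ℝ) < q := by exact_mod_cast hq
  unfold nn
  rw [Finset.sum_comm]
  have h : ∀ x : Pt, ∑ w, av V w x = (Fintype.card Ω₁ : ℝ) / (q : ℝ) ^ m := by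
    intro x
    have h2 := congrArg (fun k : ℕ => (k : ℝ)) (h1 x)
    simp only [Nat.cast_mul, Nat.cast_pow] at h2
    rw [cardR] at h2
    rw [eq_div_iff (by positivity)]
    exact h2
  rw [Finset.sum_congr rfl fun x _ => h x, Finset.sum_const, Finset.card_univ, hP, nsmul_eq_mul]
  push_cast
  rw [pow_add]
  field_simp

theorem sum_nn_sq (hq : 0 < q) (hP : Fintype.card Pt = q ^ (s + m))
    (h1 : ∀ x, Nat.card {ω // x ∈ V ω} * q ^ m = Fintype.card Ω₁)
    (h2 : ∀ x y, x ≠ y →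
      Nat.card {ω // x ∈ V ω ∧ y ∈ V ω} * q ^ (2 * m) = Fintype.card Ω₁) :
    ∑ w, nn V w ^ 2 ≤ ((q : ℝ) ^ s + ((q : ℝ) ^ s) ^ 2) * Fintype.card Ω₁ := by
  have hq' : (0 : ℝ) < q := by exact_mod_cast hq
  have e1 : ∑ w, nn V w ^ 2 = ∑ x, ∑ y, ∑ w, av V w x * av V w y := by
    rw [Finset.sum_congr rfl fun w _ => nn_sq V w, Finset.sum_comm]
    refine Finset.sum_congr rfl fun x _ => ?_
    rw [Finset.sum_comm]
  have hx : ∀ x y : Pt, ∑ w, av V w x * av V w y ≤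
      (if x = y then (Fintype.card Ω₁ : ℝ) / (q : ℝ) ^ m else 0) +
        (Fintype.card Ω₁ : ℝ) / (q : ℝ) ^ (2 * m) := by
    intro x y
    have hpos : 0 ≤ (Fintype.card Ω₁ : ℝ) / (q : ℝ) ^ (2 * m) := by positivity
    by_cases hxy : x = y
    · subst hxy
      rw [if_pos rfl]
      have h3 := congrArg (fun k : ℕ => (k : ℝ)) (h1 x)
      simp only [Nat.cast_mul, Nat.cast_pow] at h3
      rw [cardR] at h3
      have h4 : ∑ w, av V w x * av V w x = (Fintype.card Ω₁ : ℝ) / (q : ℝ) ^ m := by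
        rw [eq_div_iff (by positivity), ← h3]
        congr 1
        exact Finset.sum_congr rfl fun w _ => av_sq V w x
      linarith
    · rw [if_neg hxy]
      have h3 := congrArg (fun k : ℕ => (k : ℝ)) (h2 x y hxy)
      simp only [Nat.cast_mul, Nat.cast_pow] at h3
      rw [cardR] at h3
      have h4 : ∑ w, av V w x * av V w y = (Fintype.card Ω₁ : ℝ) / (q : ℝ) ^ (2 * m) := by
        rw [eq_div_iff (by positivity), ← h3]
        congr 1
        refine Finset.sum_congr rfl fun w _ => ?_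
        unfold av
        by_cases a1 : x ∈ V w <;> by_cases a2 : y ∈ V w <;> simp [a1, a2]
      linarith
  rw [e1]
  refine (Finset.sum_le_sum fun x _ => Finset.sum_le_sum fun y _ => hx x y).trans (le_of_eq ?_)
  simp only [Finset.sum_add_distrib, Finset.sum_ite_eq, Finset.mem_univ, if_true,
    Finset.sum_const, Finset.card_univ, hP, nsmul_eq_mul]
  push_cast
  rw [pow_add, pow_mul']
  field_simp

theorem sum_eps (hq : 0 < q) (h3 : ∀ x y, Nat.card {ω // R ω x y} * q = Fintype.card Ω₂)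
    (w : Ω₁) : ∑ a, eps V R w a = (Fintype.card Ω₂ : ℝ) / q * nn V w ^ 2 := by
  have hq' : (0 : ℝ) < q := by exact_mod_cast hq
  unfold eps
  rw [Finset.sum_comm, nn_sq, Finset.mul_sum]
  refine Finset.sum_congr rfl fun x _ => ?_
  rw [Finset.sum_comm, Finset.mul_sum]
  refine Finset.sum_congr rfl fun y _ => ?_
  rw [← Finset.mul_sum]
  have h4 := congrArg (fun k : ℕ => (k : ℝ)) (h3 x y)
  simp only [Nat.cast_mul] at h4
  rw [cardR] at h4
  have h5 : ∑ a, (if R a x y then (1 : ℝ) else 0) = (Fintype.card Ω₂ : ℝ) / q := by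
    rw [eq_div_iff hq'.ne', ← h4]
  rw [h5]
  ring

end

theorem FM : S_FM := by
  intro s m C hs
  refine ⟨16 * (C + 1), fun q hq Pt Ω₁ Ω₂ Ci _ _ _ _ _ _ V R S bad hP h1 h2 h3 hS h5 h6 => ?_⟩
  have hq0 : 0 < q := by omega
  have hq' : (0 : ℝ) < q := by exact_mod_cast hq0
  set A1 : ℝ := (Fintype.card Ω₁ : ℝ) with hA1
  set A2 : ℝ := (Fintype.card Ω₂ : ℝ) with hA2
  have hA10 : 0 < A1 := by rw [hA1]; exact_mod_cast Fintype.card_pos
  have hA20 : 0 < A2 := by rw [hA2]; exact_mod_cast Fintype.card_pos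
  set Q : ℝ := (q : ℝ) ^ s with hQ
  have hQ0 : 0 < Q := by positivity
  have e1 := sum_nn (s := s) (m := m) V hq0 hP h1
  have e2 := sum_nn_sq (s := s) (m := m) V hq0 hP h1 h2
  rw [← hA1, ← hQ] at e1 e2
  have e3 : ∑ w, (nn V w - Q) ^ 2 = ∑ w, nn V w ^ 2 - Q ^ 2 * A1 := by
    have : ∀ w, (nn V w - Q) ^ 2 = nn V w ^ 2 - 2 * Q * nn V w + Q ^ 2 := fun w => by ring
    rw [Finset.sum_congr rfl fun w _ => this w, Finset.sum_add_distrib, Finset.sum_sub_distrib,
      ← Finset.mul_sum, e1, Finset.sum_const, Finset.card_univ, nsmul_eq_mul]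
    ring
  have e4 : 0 ≤ ∑ w, (nn V w - Q) ^ 2 := Finset.sum_nonneg fun w _ => sq_nonneg _
  -- the weights
  set Phi : Ω₁ × Ω₂ → ℝ := fun z => (if nn V z.1 ≤ 2 * Q then eps V R z.1 z.2 else 0) -
    4 * Q * kap V S z.1 - 4 * Q ^ 2 * (if bad z.1 z.2 then 1 else 0) with hPhi
  have hsum1 : A2 / q * (Q ^ 2 * A1 - 4 * (Q * A1)) ≤
      ∑ z : Ω₁ × Ω₂, (if nn V z.1 ≤ 2 * Q then eps V R z.1 z.2 else 0) := by
    rw [Fintype.sum_prod_type]
    have g1 : ∀ w : Ω₁, A2 / q * (nn V w ^ 2 - 4 * (nn V w - Q) ^ 2) ≤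
        ∑ a : Ω₂, (if nn V w ≤ 2 * Q then eps V R w a else 0) := by
      intro w
      by_cases hw : nn V w ≤ 2 * Q
      · simp only [if_pos hw]
        rw [sum_eps V R hq0 h3 w]
        refine mul_le_mul_of_nonneg_left ?_ (by positivity)
        nlinarith [sq_nonneg (nn V w - Q)]
      · simp only [if_neg hw, Finset.sum_const_zero]
        push Not at hw
        refine mul_nonpos_of_nonneg_of_nonpos (by positivity) ?_
        nlinarith
    refine le_trans ?_ (Finset.sum_le_sum fun w _ => g1 w)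
    rw [← Finset.mul_sum, Finset.sum_sub_distrib, ← Finset.mul_sum, e3]
    refine mul_le_mul_of_nonneg_left ?_ (by positivity)
    nlinarith
  have hsum2 : ∑ z : Ω₁ × Ω₂, kap V S z.1 ≤ A2 * (C * Q * A1 / q ^ 2) := by
    rw [Fintype.sum_prod_type]
    simp only [Finset.sum_const, Finset.card_univ, nsmul_eq_mul]
    rw [← Finset.mul_sum]
    refine mul_le_mul_of_nonneg_left ?_ hA20.le
    rw [le_div_iff₀ (by positivity)]
    have h7 : ((q ^ 2 * ∑ c, Nat.card {ω // S c ⊆ V ω} : ℕ) : ℝ) ≤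
        ((C * q ^ s * Fintype.card Ω₁ : ℕ) : ℝ) := Nat.cast_le.2 h5
    push_cast at h7
    have h8 : ∑ w, kap V S w = ∑ c, ((Nat.card {ω // S c ⊆ V ω} : ℕ) : ℝ) := by
      unfold kap
      rw [Finset.sum_comm]
      exact Finset.sum_congr rfl fun c _ => (cardR _).symm
    rw [h8]
    calc _ = (q : ℝ) ^ 2 * ∑ c, ((Nat.card {ω // S c ⊆ V ω} : ℕ) : ℝ) := by ring
      _ ≤ _ := h7
  have hsum3 : ∑ z : Ω₁ × Ω₂, (if bad z.1 z.2 then (1 : ℝ) else 0) ≤ C * A1 * A2 / q ^ 2 := by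
    rw [← cardR (fun z : Ω₁ × Ω₂ => bad z.1 z.2), le_div_iff₀ (by positivity)]
    have h7 : ((q ^ 2 * Nat.card {ω : Ω₁ × Ω₂ // bad ω.1 ω.2} : ℕ) : ℝ) ≤
      ((C * Fintype.card Ω₁ * Fintype.card Ω₂ : ℕ) : ℝ) := Nat.cast_le.2 h6
    push_cast at h7
    linarith
  have hqC : 16 * ((C : ℝ) + 1) ≤ q := by exact_mod_cast hq
  have hC0 : (0 : ℝ) ≤ C := Nat.cast_nonneg _
  have hq1 : (1 : ℝ) ≤ q := by linarith
  have hQq : (q : ℝ) ≤ Q := by
    rw [hQ]
    calc (q : ℝ) = (q : ℝ) ^ 1 := (pow_one _).symm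
      _ ≤ (q : ℝ) ^ s := pow_le_pow_right₀ hq1 (by omega)
  have hsumPhi : ∑ _z : Ω₁ × Ω₂, Q ^ 2 / q / 4 ≤ ∑ z : Ω₁ × Ω₂, Phi z := by
    have h7 : ∑ z : Ω₁ × Ω₂, Phi z =
        ∑ z : Ω₁ × Ω₂, (if nn V z.1 ≤ 2 * Q then eps V R z.1 z.2 else 0) -
        4 * Q * ∑ z : Ω₁ × Ω₂, kap V S z.1 -
        4 * Q ^ 2 * ∑ z : Ω₁ × Ω₂, (if bad z.1 z.2 then (1 : ℝ) else 0) := by
      rw [hPhi, Finset.sum_sub_distrib, Finset.sum_sub_distrib, ← Finset.mul_sum, ← Finset.mul_sum]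
    rw [h7, Finset.sum_const, Finset.card_univ, Fintype.card_prod, nsmul_eq_mul]
    push_cast
    rw [← hA1, ← hA2]
    have h8 : 4 * Q * ∑ z : Ω₁ × Ω₂, kap V S z.1 ≤ 4 * Q * (A2 * (C * Q * A1 / q ^ 2)) :=
      mul_le_mul_of_nonneg_left hsum2 (by positivity)
    have h9 : 4 * Q ^ 2 * ∑ z : Ω₁ × Ω₂, (if bad z.1 z.2 then (1 : ℝ) else 0) ≤
        4 * Q ^ 2 * (C * A1 * A2 / q ^ 2) := mul_le_mul_of_nonneg_left hsum3 (by positivity)
    have h10 : A1 * A2 * (Q ^ 2 / q / 4) ≤ A2 / q * (Q ^ 2 * A1 - 4 * (Q * A1)) -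
        4 * Q * (A2 * (C * Q * A1 / q ^ 2)) - 4 * Q ^ 2 * (C * A1 * A2 / q ^ 2) := by
      have h11 : A2 / q * (Q ^ 2 * A1 - 4 * (Q * A1)) -
        4 * Q * (A2 * (C * Q * A1 / q ^ 2)) - 4 * Q ^ 2 * (C * A1 * A2 / q ^ 2) -
        A1 * A2 * (Q ^ 2 / q / 4) =
        A1 * A2 * Q / q ^ 2 * (3 / 4 * Q * q - 4 * q - 8 * C * Q) := by
        field_simp
        ring
      have h12 : 0 ≤ 3 / 4 * Q * q - 4 * q - 8 * C * Q := by nlinarith
      have h13 : 0 ≤ A1 * A2 * Q / q ^ 2 * (3 / 4 * Q * q - 4 * q - 8 * C * Q) :=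
        mul_nonneg (by positivity) h12
      linarith
    linarith
  obtain ⟨⟨w, a⟩, _, hwa⟩ := Finset.exists_le_of_sum_le Finset.univ_nonempty hsumPhi
  have hpos : 0 < Q ^ 2 / q / 4 := by positivity
  have hkap := kap_nonneg V S w
  have hn : nn V w ≤ 2 * Q := by
    by_contra hcon
    rw [hPhi] at hwa
    simp only [if_neg hcon] at hwa
    have g1 : 0 ≤ 4 * Q * kap V S w := by positivity
    have g2 : 0 ≤ 4 * Q ^ 2 * (if bad w a then (1 : ℝ) else 0) := by
      split_ifs <;> positivity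
    linarith
  have hbad : ¬ bad w a := by
    intro hb
    rw [hPhi] at hwa
    simp only [if_pos hn, if_pos hb] at hwa
    have g1 : 0 ≤ 4 * Q * kap V S w := by positivity
    have g2 := eps_le V R w a
    have g3 : nn V w ^ 2 ≤ (2 * Q) ^ 2 := pow_le_pow_left₀ (nn_nonneg V w) hn 2
    nlinarith
  have hwa' : Q ^ 2 / q / 4 ≤ eps V R w a - 4 * Q * kap V S w := by
    rw [hPhi] at hwa
    simp only [if_pos hn, if_neg hbad] at hwa
    linarith
  -- deletion
  choose xc hxc using hS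
  set Vf : Finset Pt := Finset.univ.filter (fun x => x ∈ V w) with hVf
  set D : Finset Pt := (Finset.univ.filter (fun c => S c ⊆ V w)).image xc with hD
  have hDk : ((#D : ℕ) : ℝ) ≤ kap V S w := by
    have g1 : #D ≤ #(Finset.univ.filter (fun c => S c ⊆ V w)) := Finset.card_image_le
    have g2 : kap V S w = ((#(Finset.univ.filter (fun c => S c ⊆ V w)) : ℕ) : ℝ) := by
      unfold kap
      rw [Finset.sum_boole]
    rw [g2]
    exact_mod_cast g1
  have hVn : ((#Vf : ℕ) : ℝ) = nn V w := by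
    unfold nn av
    rw [Finset.sum_boole]
  have heps : eps V R w a = ((#((Vf ×ˢ Vf).filter (fun z => R a z.1 z.2)) : ℕ) : ℝ) := by
    unfold eps
    rw [← Fintype.sum_prod_type' (f := fun x y => av V w x * av V w y * (if R a x y then (1 : ℝ) else 0))]
    have g1 : ∀ z : Pt × Pt, av V w z.1 * av V w z.2 * (if R a z.1 z.2 then (1 : ℝ) else 0) =
        if (z ∈ (Vf ×ˢ Vf).filter (fun z => R a z.1 z.2)) then (1 : ℝ) else 0 := by
      intro z
      unfold av
      by_cases a1 : z.1 ∈ V w <;> by_cases a2 : z.2 ∈ V w <;> by_cases a3 : R a z.1 z.2 <;>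
        simp [a1, a2, a3, hVf]
    rw [Finset.sum_congr rfl fun z _ => g1 z, Finset.sum_boole]
    congr 2
    ext z
    simp only [Finset.mem_filter, Finset.mem_univ, true_and]
  refine ⟨w, a, hbad, ((Vf \ D : Finset Pt) : Set Pt), ?_, ?_, ?_, ?_⟩
  · intro x hx
    rw [Finset.mem_coe, Finset.mem_sdiff, hVf, Finset.mem_filter] at hx
    exact hx.1.2
  · intro c hc
    have g1 : S c ⊆ V w := by
      intro x hx
      have := hc hx
      rw [Finset.mem_coe, Finset.mem_sdiff, hVf, Finset.mem_filter] at this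
      exact this.1.2
    have g2 := hc (hxc c)
    rw [Finset.mem_coe, Finset.mem_sdiff] at g2
    apply g2.2
    rw [hD, Finset.mem_image]
    exact ⟨c, Finset.mem_filter.2 ⟨Finset.mem_univ _, g1⟩, rfl⟩
  · rw [Set.ncard_coe_finset]
    have g1 : #(Vf \ D) ≤ #Vf := Finset.card_le_card Finset.sdiff_subset
    have g2 : ((#Vf : ℕ) : ℝ) ≤ ((2 * q ^ s : ℕ) : ℝ) := by
      rw [hVn]; push_cast; exact hn
    exact g1.trans (by exact_mod_cast g2)
  · have g0 : {z : Pt × Pt | z.1 ∈ ((Vf \ D : Finset Pt) : Set Pt) ∧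
        z.2 ∈ ((Vf \ D : Finset Pt) : Set Pt) ∧ R a z.1 z.2} =
        ((((Vf \ D) ×ˢ (Vf \ D)).filter (fun z => R a z.1 z.2) : Finset (Pt × Pt)) :
          Set (Pt × Pt)) := by
      ext z
      simp [and_assoc]
    rw [g0, Set.ncard_coe_finset]
    set N0 := #(((Vf \ D) ×ˢ (Vf \ D)).filter (fun z => R a z.1 z.2)) with hN0
    have g1 : (Vf ×ˢ Vf).filter (fun z => R a z.1 z.2) ⊆
        (((Vf \ D) ×ˢ (Vf \ D)).filter (fun z => R a z.1 z.2)) ∪ (D ×ˢ Vf ∪ Vf ×ˢ D) := by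
      intro z hz
      rw [Finset.mem_filter, Finset.mem_product] at hz
      rw [Finset.mem_union, Finset.mem_union, Finset.mem_filter, Finset.mem_product,
        Finset.mem_product, Finset.mem_product, Finset.mem_sdiff, Finset.mem_sdiff]
      tauto
    have g2 : #((Vf ×ˢ Vf).filter (fun z => R a z.1 z.2)) ≤ N0 + (#D * #Vf + #Vf * #D) := by
      refine (Finset.card_le_card g1).trans ((Finset.card_union_le _ _).trans ?_)
      refine Nat.add_le_add_left ((Finset.card_union_le _ _).trans ?_) _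
      rw [Finset.card_product, Finset.card_product]
    have g3 : ((#((Vf ×ˢ Vf).filter (fun z => R a z.1 z.2)) : ℕ) : ℝ) ≤
        ((N0 + (#D * #Vf + #Vf * #D) : ℕ) : ℝ) := Nat.cast_le.2 g2
    rw [← heps] at g3
    push_cast at g3
    rw [hVn] at g3
    have g4 : (#D : ℝ) * nn V w ≤ kap V S w * (2 * Q) :=
      mul_le_mul hDk hn (nn_nonneg V w) hkap
    have g5 : Q ^ 2 / q / 4 ≤ N0 := by nlinarith
    have g6 : ((q ^ (2 * s - 1) : ℕ) : ℝ) = Q ^ 2 / q := by
      rw [hQ, eq_div_iff hq'.ne', ← pow_mul]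
      push_cast
      rw [← pow_succ]
      congr 1
      omega
    have g7 : ((q ^ (2 * s - 1) : ℕ) : ℝ) ≤ ((4 * N0 : ℕ) : ℝ) := by
      rw [g6]
      push_cast
      linarith
    exact Nat.cast_le.1 g7

end Pool.Agent.N459.BK.FM
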